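import Pool.Agent.H.MP_ef93d4_co.h56.Eight

/-!
# Orthogonal colourings of the sphere whose classes have the property of Baire

If all unit vectors of `ℝ^d`, `d ≥ 4`, are coloured with `m` colours so that orthogonal unit
vectors get different colours and every colour class has the property of Baire in the sphere (for
example, is a Borel set), then `m ≥ 2 + d (d - 1) / 2`.
-/

namespace Pool.Agent.Results.MP_ef93d4_co.BaireClasses

open Pool.Agent.OrthoFan

/-- Colourings with classes that have the property of Baire need at least `2 + d (d - 1) / 2`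
colours in dimension `d ≥ 4`. -/
theorem result (d m : ℕ) (hd : 4 ≤ d)
    (c : Metric.sphere (0 : EuclideanSpace ℝ (Fin d)) 1 → Fin m)
    (hbaire : ∀ i, BaireMeasurableSet (c ⁻¹' {i}))
    (hcol : ∀ x y : Metric.sphere (0 : EuclideanSpace ℝ (Fin d)) 1,
      inner ℝ (x : EuclideanSpace ℝ (Fin d)) (y : EuclideanSpace ℝ (Fin d)) = 0 → c x ≠ c y) :
    2 + d * (d - 1) / 2 ≤ m := by
  obtain ⟨e, rfl⟩ : ∃ e, d = e + 1 := ⟨d - 1, by omega⟩
  have h := baire_classes4 e (by omega) (E := EuclideanSpace ℝ (Fin (e + 1))) (by simp) c hbaire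
    hcol
  have h1 : (e + 1) * (e + 1 - 1) = e * (e + 1) := by
    rw [Nat.add_sub_cancel]
    ring
  rw [h1]
  omega

end Pool.Agent.Results.MP_ef93d4_co.BaireClasses
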