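import Pool.Agent.H.MP_ef93d4_co.h56.Eight

/-!
# The Borel chromatic number of the orthogonality graph of the sphere of four-space is eight

All unit vectors of `ℝ^4` can be coloured with eight colours such that orthogonal unit vectors get
different colours and all colour classes are Borel sets. In every colouring of the unit vectors of
`ℝ^4` in which orthogonal unit vectors get different colours and all colour classes have the
property of Baire (for example, are Borel sets) there are at least eight colours.
-/

namespace Pool.Agent.Results.MP_ef93d4_co.BorelFour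

open Pool.Agent.OrthoFan

/-- Eight Borel classes suffice in dimension four, and fewer classes with the property of Baire do
not. -/
theorem result :
    (∃ c : Metric.sphere (0 : EuclideanSpace ℝ (Fin 4)) 1 → Fin 8,
      (∀ i, @MeasurableSet _ (borel _) (c ⁻¹' {i})) ∧
      ∀ x y : Metric.sphere (0 : EuclideanSpace ℝ (Fin 4)) 1,
        inner ℝ (x : EuclideanSpace ℝ (Fin 4)) (y : EuclideanSpace ℝ (Fin 4)) = 0 → c x ≠ c y) ∧
    ∀ (m : ℕ) (c : Metric.sphere (0 : EuclideanSpace ℝ (Fin 4)) 1 → Fin m),
      (∀ i, BaireMeasurableSet (c ⁻¹' {i})) →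
      (∀ x y : Metric.sphere (0 : EuclideanSpace ℝ (Fin 4)) 1,
        inner ℝ (x : EuclideanSpace ℝ (Fin 4)) (y : EuclideanSpace ℝ (Fin 4)) = 0 → c x ≠ c y) →
      8 ≤ m := by
  refine ⟨borel_colouring 4, ?_⟩
  intro m c hbaire hcol
  have h := baire_classes4 3 le_rfl (E := EuclideanSpace ℝ (Fin 4)) (by simp) c hbaire hcol
  omega

end Pool.Agent.Results.MP_ef93d4_co.BorelFour
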