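import Pool.Agent.H.MP_ef93d4_co.h56.Near
import Pool.Agent.H.MP_ef93d4_co.h56.Sharp

/-!
# Nearly orthogonal monochromatic pairs on the sphere

A colouring of all unit vectors of `ℝ^d` with fewer than `d (d + 1) / 2` colours, with arbitrary
colour classes, has for every `ε > 0` two unit vectors `x, y` of one colour with
`|⟨x, y⟩| < ε`.  For `d = 2` and `d = 3` the number `d (d + 1) / 2` of colours cannot be
replaced by a larger one.
-/

namespace Pool.Agent.Results.MP_ef93d4_co.NearlyOrthogonal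

open Pool.Agent.OrthoFan

/-- The unit vectors of `ℝ^d` can be coloured with `m` colours so that any two unit vectors
`x, y` of the same colour satisfy `|⟨x, y⟩| ≥ ε`. -/
def Separated (d m : ℕ) (ε : ℝ) : Prop :=
  ∃ c : Metric.sphere (0 : EuclideanSpace ℝ (Fin d)) 1 → Fin m,
    ∀ x y : Metric.sphere (0 : EuclideanSpace ℝ (Fin d)) 1, c x = c y →
      ε ≤ |inner ℝ (x : EuclideanSpace ℝ (Fin d)) (y : EuclideanSpace ℝ (Fin d))|

theorem lower (d m : ℕ) (ε : ℝ) (hε : 0 < ε) (h : Separated d m ε) : d * (d + 1) / 2 ≤ m := by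
  by_contra hcon
  have hm : 2 * m < d * (d + 1) := by
    have h2 : d * (d + 1) / 2 * 2 ≤ d * (d + 1) := Nat.div_mul_le_self _ _
    omega
  obtain ⟨c, hc⟩ := h
  have hd : 0 < d := by
    rcases Nat.eq_zero_or_pos d with h0 | h0
    · rw [h0] at hm
      omega
    · exact h0
  -- the sphere is nonempty, so `m` is positive
  have hne : Nonempty (Fin m) := by
    have hx : ‖(EuclideanSpace.single (⟨0, hd⟩ : Fin d) (1 : ℝ) : EuclideanSpace ℝ (Fin d))‖ = 1 := by
      rw [EuclideanSpace.norm_single, norm_one]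
    exact ⟨c ⟨_, mem_sphere_zero_iff_norm.2 hx⟩⟩
  classical
  let c' : EuclideanSpace ℝ (Fin d) → Fin m := fun x =>
    if hx : ‖x‖ = 1 then c ⟨x, mem_sphere_zero_iff_norm.2 hx⟩ else Classical.arbitrary _
  obtain ⟨x, y, hx, hy, hxy, hlt⟩ := near_orthogonal d (E := EuclideanSpace ℝ (Fin d)) (by simp) m hm
    c' ε hε
  have h1 : c' x = c ⟨x, mem_sphere_zero_iff_norm.2 hx⟩ := dif_pos hx
  have h2 : c' y = c ⟨y, mem_sphere_zero_iff_norm.2 hy⟩ := dif_pos hy
  rw [h1, h2] at hxy
  exact absurd (hc _ _ hxy) (not_le.2 hlt)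

/-- Fewer than `d (d + 1) / 2` colours never suffice to keep the classes away from
orthogonality, for no `d`; for `d = 2` and `d = 3` the number `d (d + 1) / 2` suffices. -/
theorem result :
    (∀ (d m : ℕ) (ε : ℝ), 0 < ε → Separated d m ε → d * (d + 1) / 2 ≤ m) ∧
      Separated 2 3 (1 / 2) ∧ Separated 3 6 (1 / 5) := by
  refine ⟨lower, ?_, ?_⟩
  · obtain ⟨c, hc⟩ := circle_colouring
    exact ⟨fun x => c x, fun x y h => hc x y (mem_sphere_zero_iff_norm.1 x.2)
      (mem_sphere_zero_iff_norm.1 y.2) h⟩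
  · obtain ⟨c, hc⟩ := sphere_colouring
    exact ⟨fun x => c x, fun x y h => hc x y (mem_sphere_zero_iff_norm.1 x.2)
      (mem_sphere_zero_iff_norm.1 y.2) h⟩

end Pool.Agent.Results.MP_ef93d4_co.NearlyOrthogonal
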