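import Pool.Agent.H.MP_ef93d4_co.Lower
import Pool.Agent.H.MP_ef93d4_co.Upper

/-!
# The chromatic number of the orthogonality graph of the unit sphere of four-space is 7 or 8

With `chi X δ` the least number of colours in a colouring of all points of `X` such that points at
distance exactly `δ` get different colours, and `χ_d = chi (unit sphere of ℝ^d) √2`:
`7 ≤ χ_4 ≤ 8`, and `7 ⌊d/4⌋ + (d mod 4) ≤ χ_d ≤ 2^(d-1)` for every `d ≥ 1`.
-/

namespace Pool.Agent.OrthoChi

/-- Extension of the coordinates by zero. -/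
noncomputable def coord {d : ℕ} (x : S d) (i : ℕ) : ℝ :=
  if h : i < d then (x : EuclideanSpace ℝ (Fin d)) ⟨i, h⟩ else 0

theorem coord_ne {d : ℕ} (x : S d) : ∃ i, i < d ∧ coord x i ≠ 0 := by
  by_contra hcon
  push Not at hcon
  have h0 : (x : EuclideanSpace ℝ (Fin d)) = 0 := by
    ext i
    have := hcon i i.2
    simpa [coord, i.2] using this
  have h1 := norm_S x
  rw [h0, norm_zero] at h1
  norm_num at h1

theorem sum_coord {d : ℕ} (x y : S d) : ∑ i ∈ Finset.range d, coord x i * coord y i =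
    inner ℝ (x : EuclideanSpace ℝ (Fin d)) (y : EuclideanSpace ℝ (Fin d)) := by
  rw [Finset.sum_range]
  simp only [PiLp.inner_apply, RCLike.inner_apply, conj_trivial, coord, Fin.is_lt, dif_pos,
    Fin.eta]
  exact Finset.sum_congr rfl (fun i _ => mul_comm _ _)

theorem chi_le (d : ℕ) (_hd : 1 ≤ d) :
    chi (S d) (Real.sqrt 2) ≤ ((2 ^ (d - 1) : ℕ) : ℕ∞) := by
  unfold chi
  rw [SimpleGraph.chromaticNumber_le_iff_colorable]
  let C : (distGraph (S d) (Real.sqrt 2)).Coloring (Fin (d - 1) → Bool) :=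
    SimpleGraph.Coloring.mk (fun x i => tq (coord x) d ((i : ℕ) + 1)) (by
      intro x y hxy heq
      have h0 := (adj_iff x y).1 hxy
      refine sum_ne_zero (coord x) (coord y) d (coord_ne x) (coord_ne y) ?_
        ((sum_coord x y).trans h0)
      intro k hk1 hk2
      have h1 := congrFun heq ⟨k - 1, by omega⟩
      have h2 : k - 1 + 1 = k := by omega
      simpa only [h2] using h1)
  have h := C.colorable
  rw [Fintype.card_fun, Fintype.card_bool, Fintype.card_fin] at h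
  exact h

end Pool.Agent.OrthoChi

namespace Pool.Agent.Results.MP_ef93d4_co.SevenOrEight

open Pool.Agent.OrthoChi

/-- `7 ≤ χ_4 ≤ 8`, and `7 ⌊d/4⌋ + (d mod 4) ≤ χ_d ≤ 2^(d-1)` for every `d ≥ 1`. -/
theorem result :
    (7 ≤ chi (Metric.sphere (0 : EuclideanSpace ℝ (Fin 4)) 1) (Real.sqrt 2) ∧
      chi (Metric.sphere (0 : EuclideanSpace ℝ (Fin 4)) 1) (Real.sqrt 2) ≤ 8) ∧
    ∀ d : ℕ, 1 ≤ d →
      ((7 * (d / 4) + d % 4 : ℕ) : ℕ∞) ≤
        chi (Metric.sphere (0 : EuclideanSpace ℝ (Fin d)) 1) (Real.sqrt 2) ∧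
      chi (Metric.sphere (0 : EuclideanSpace ℝ (Fin d)) 1) (Real.sqrt 2) ≤
        ((2 ^ (d - 1) : ℕ) : ℕ∞) := by
  refine ⟨⟨?_, ?_⟩, fun d hd => ⟨LB_chi (LB_general d), chi_le d hd⟩⟩
  · exact_mod_cast LB_chi LB_four
  · have h := chi_le 4 (by norm_num)
    norm_num at h
    exact h

end Pool.Agent.Results.MP_ef93d4_co.SevenOrEight
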